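import Pool.Agent.Helper87.MD.Goals

/-!
# Project MD (MP_c307ca_nt): the final step
-/

set_option autoImplicit false

open Finset Filter
open scoped Classical

namespace Pool.Agent.Helper85.MD

open Pool.Agent.Helper98.Lang Pool.Agent.Helper87.MD Pool.Agent.Helper92.Avg

theorem LL_pos (ε : ℝ) {q : ℕ} (hq : 2 ≤ q) : 0 < LL ε q := by
  unfold LL
  have : (2 : ℝ) ≤ q := by exact_mod_cast hq
  exact Real.rpow_pos_of_pos (Real.log_pos (by linarith)) _

theorem phi_le {ε ε' Q : ℝ} (hε'0 : 0 ≤ ε') (hQ : 2 ≤ Q) {q : ℕ} (hQq : Q ≤ q) :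
    1 / ((q : ℝ) * LL ε q) ≤ phi (ε - ε') q / Real.log Q ^ ε' := by
  have hq2' : (2 : ℝ) ≤ q := hQ.trans hQq
  have hq2 : 2 ≤ q := by exact_mod_cast hq2'
  have hlogQ : 0 < Real.log Q := Real.log_pos (by linarith)
  have hlq : 0 < Real.log (q : ℝ) := Real.log_pos (by linarith)
  unfold phi LL
  rw [max_eq_left hq2]
  have h8 : Real.log (q : ℝ) ^ (1 + ε) =
      Real.log (q : ℝ) ^ (1 + (ε - ε')) * Real.log (q : ℝ) ^ ε' := by
    rw [← Real.rpow_add hlq]; ring_nf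
  have h9 : Real.log Q ^ ε' ≤ Real.log (q : ℝ) ^ ε' :=
    Real.rpow_le_rpow hlogQ.le (Real.log_le_log (by linarith) hQq) hε'0
  have h10 : 0 < Real.log (q : ℝ) ^ (1 + (ε - ε')) := Real.rpow_pos_of_pos hlq _
  have h11 : 0 < Real.log Q ^ ε' := Real.rpow_pos_of_pos hlogQ _
  rw [h8, div_div]
  apply div_le_div_of_nonneg_left (by norm_num) (by positivity)
  calc (q : ℝ) * Real.log (q : ℝ) ^ (1 + (ε - ε')) * Real.log Q ^ ε'
      ≤ (q : ℝ) * Real.log (q : ℝ) ^ (1 + (ε - ε')) * Real.log (q : ℝ) ^ ε' :=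
        mul_le_mul_of_nonneg_left h9 (by positivity)
    _ = _ := by ring

/-- the pairs for one `q` -/
noncomputable def PQ (ξ c ε : ℝ) (s M d q : ℕ) : Finset (ℕ × ℕ) :=
  ((Icc 1 M) ×ˢ (range d)).filter (fun x : ℕ × ℕ => ∃ p : ℤ,
    |((s : ℝ) * x.1 * ξ + x.2) / d - (p : ℝ) / q| ≤ c / ((q : ℝ) ^ 2 * LL ε q))

theorem PQ_card (hC : CntStmt) {ξ c ε : ℝ} {s M d q : ℕ} (hc : 0 < c) (hd : 1 ≤ d) (hq : 2 ≤ q) :
    ((PQ ξ c ε s M d q).card : ℝ) ≤
      4 * c * ((M * d : ℕ) : ℝ) / (q * LL ε q) + (Nat.gcd d q : ℝ) * WW ξ c ε s M d q := by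
  have h1 : (PQ ξ c ε s M d q).card = ∑ a ∈ Icc 1 M,
      ((range d).filter (fun b : ℕ => ∃ p : ℤ,
        |((s : ℝ) * a * ξ + b) / d - (p : ℝ) / q| ≤ c / ((q : ℝ) ^ 2 * LL ε q))).card := by
    unfold PQ
    rw [Finset.card_filter, Finset.sum_product]
    refine Finset.sum_congr rfl fun a _ => ?_
    rw [Finset.card_filter]
  have h2 : ∀ a ∈ Icc 1 M, (((range d).filter (fun b : ℕ => ∃ p : ℤ,
        |((s : ℝ) * a * ξ + b) / d - (p : ℝ) / q| ≤ c / ((q : ℝ) ^ 2 * LL ε q))).card : ℝ) ≤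
      4 * c * d / (q * LL ε q) + (Nat.gcd d q : ℝ) *
      (if et c ε d q < 1 / 2 ∧
        nd ((s : ℝ) * a * ((q / Nat.gcd d q : ℕ) : ℝ) * ξ) ≤ et c ε d q then 1 else 0) := by
    intro a _
    have h3 := hC ((s : ℝ) * a * ξ) c ε d q hc hd hq
    have h4 : (s : ℝ) * a * ξ * ((q / Nat.gcd d q : ℕ) : ℝ) =
        (s : ℝ) * a * ((q / Nat.gcd d q : ℕ) : ℝ) * ξ := by ring
    rw [h4] at h3
    exact h3
  rw [h1]
  push_cast
  refine (Finset.sum_le_sum h2).trans (le_of_eq ?_)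
  rw [Finset.sum_add_distrib, Finset.sum_const, ← Finset.mul_sum, Nat.card_Icc,
    Nat.add_sub_cancel, nsmul_eq_mul]
  unfold WW
  rw [Finset.card_filter]
  push_cast
  ring

theorem mdFIN : FinGoal := by
  intro hR hC hS hL ε ε' hε hε'0 hε'
  have hε2 : 0 < ε - ε' := by linarith
  have hZ := Zsum_nonneg (ε - ε')
  refine ⟨16 * Zsum (ε - ε') + 2, ?_⟩
  intro ξ hξ hirr c A α₀ hc hα₀
  have hRoth := hR ξ hξ hirr
  set α : ℝ := max α₀ 0 with hαdef
  have hα0 : 0 ≤ α := le_max_right _ _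
  have hα1 : α < 1 := max_lt hα₀ (by norm_num)
  set κ : ℝ := (1 - α) / 8 with hκdef
  have hκ : 0 < κ := by rw [hκdef]; linarith
  obtain ⟨N1, hN1⟩ := hS ξ hRoth ε c α hε hc hα0 hα1
  set ε2 : ℝ := (ε + ε') / 2 with hε2d
  obtain ⟨N2, hN2⟩ := hL ξ hRoth ε ε2 κ A c α hε (by rw [hε2d]; linarith) hκ hc hα0 hα1
  set B : ℝ := max A 1 with hB
  have hB1 : 1 ≤ B := le_max_right _ _
  have hgap : 0 < ε2 - ε' := by rw [hε2d]; linarith
  have htend : Tendsto (fun N : ℕ => Real.log N ^ (ε2 - ε')) atTop atTop :=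
    (tendsto_rpow_atTop hgap).comp
      (Real.tendsto_log_atTop.comp tendsto_natCast_atTop_atTop)
  obtain ⟨N3, hN3⟩ := eventually_atTop.1 (htend.eventually_ge_atTop (B ^ ε' / c))
  -- the errors of the small denominators
  have hlim : ∀ᶠ N : ℕ in atTop, B ^ ε' * Real.log (N : ℝ) ^ ε' ≤ c * (N : ℝ) ^ κ := by
    have h1 := (isLittleO_log_rpow_rpow_atTop ε' hκ).bound
      (show 0 < c / B ^ ε' by positivity)
    have h2 := tendsto_natCast_atTop_atTop.eventually (h1.and (eventually_ge_atTop (1 : ℝ)))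
    filter_upwards [h2] with N hN
    obtain ⟨h3, h4⟩ := hN
    have h5 : 0 ≤ Real.log (N : ℝ) := Real.log_nonneg h4
    rw [Real.norm_of_nonneg (Real.rpow_nonneg h5 _),
      Real.norm_of_nonneg (Real.rpow_nonneg (by linarith) _)] at h3
    have hBp : 0 < B ^ ε' := by positivity
    calc B ^ ε' * Real.log (N : ℝ) ^ ε' ≤ B ^ ε' * (c / B ^ ε' * (N : ℝ) ^ κ) :=
          mul_le_mul_of_nonneg_left h3 hBp.le
      _ = c * (N : ℝ) ^ κ := by field_simp
  obtain ⟨N4, hN4⟩ := Filter.eventually_atTop.1 hlim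
  refine ⟨max (max N1 3) (max N2 (max N3 N4)), ?_⟩
  intro M d s hN hs hsα Q hQ
  set K : ℕ := M * d with hKdef
  have hKc : ((M : ℝ) * d) = (K : ℝ) := by rw [hKdef]; push_cast; ring
  rw [hKc] at hsα ⊢
  have g1 : N1 ≤ K := le_trans (le_trans (le_max_left _ _) (le_max_left _ _)) hN
  have g3 : 3 ≤ K := le_trans (le_trans (le_max_right _ _) (le_max_left _ _)) hN
  have g2 : N2 ≤ K := le_trans (le_trans (le_max_left _ _) (le_max_right _ _)) hN
  have g4 : N3 ≤ K :=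
    le_trans (le_trans (le_trans (le_max_left _ _) (le_max_right _ _)) (le_max_right _ _)) hN
  have g5 : N4 ≤ K :=
    le_trans (le_trans (le_trans (le_max_right _ _) (le_max_right _ _)) (le_max_right _ _)) hN
  have hd : 1 ≤ d := by
    rcases Nat.eq_zero_or_pos d with h | h
    · rw [h, Nat.mul_zero] at hKdef; omega
    · exact h
  have hKr : (3 : ℝ) ≤ K := by exact_mod_cast g3
  have hK1 : (1 : ℝ) ≤ K := by linarith
  have hKpos : (0 : ℝ) < K := by linarith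
  have hlogK : 0 < Real.log (K : ℝ) := Real.log_pos (by linarith)
  have hlogQ : 0 < Real.log Q := Real.log_pos (by linarith)
  have hlQpos : 0 < Real.log Q ^ ε' := Real.rpow_pos_of_pos hlogQ _
  have hsα' : (s : ℝ) ≤ (K : ℝ) ^ α :=
    hsα.trans (Real.rpow_le_rpow_of_exponent_le hK1 (le_max_left _ _))
  have h1 := hN1 M d s
  have h2 := hN2 M d s g2 hs hsα'
  have h3 := hN3 K g4
  have h4 := hN4 K g5
  rcases lt_or_ge ((K : ℝ) ^ A) Q with hQA | hQA
  · have hempty : {x : ℕ × ℕ | 1 ≤ x.1 ∧ x.1 ≤ M ∧ x.2 < d ∧ ∃ (p : ℤ) (q : ℕ), Q ≤ q ∧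
        (q : ℝ) ≤ (K : ℝ) ^ A ∧
        |((s : ℝ) * x.1 * ξ + x.2) / d - (p : ℝ) / (q : ℝ)|
          ≤ c / ((q : ℝ) ^ 2 * Real.log (q : ℝ) ^ (1 + ε))} = ∅ := by
      ext x
      simp only [Set.mem_ofPred_eq, Set.mem_empty_iff_false, iff_false]
      rintro ⟨-, -, -, p, q, hq2, hqA, -⟩
      linarith
    rw [hempty, Set.ncard_empty]
    have : 0 ≤ (16 * Zsum (ε - ε') + 2) * c * K / Real.log Q ^ ε' := by positivity
    exact_mod_cast this
  · have hQB : Q ≤ (K : ℝ) ^ B :=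
      hQA.trans (Real.rpow_le_rpow_of_exponent_le hK1 (le_max_left _ _))
    have h5 : Real.log Q ≤ B * Real.log K := by
      have := Real.log_le_log (by linarith) hQB
      rwa [Real.log_rpow hKpos] at this
    have h6 : Real.log Q ^ ε' ≤ B ^ ε' * Real.log (K : ℝ) ^ ε' := by
      rw [← Real.mul_rpow (by linarith) hlogK.le]
      exact Real.rpow_le_rpow hlogQ.le h5 hε'0
    -- large denominators
    have hbig : (K : ℝ) / Real.log K ^ ε2 ≤ c * K / Real.log Q ^ ε' := by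
      have h7 : Real.log (K : ℝ) ^ ε2 = Real.log (K : ℝ) ^ ε' * Real.log (K : ℝ) ^ (ε2 - ε') := by
        rw [← Real.rpow_add hlogK]; ring_nf
      have h8 : B ^ ε' ≤ c * Real.log (K : ℝ) ^ (ε2 - ε') := by
        rw [div_le_iff₀ hc] at h3
        linarith
      have h9 : 0 < Real.log (K : ℝ) ^ ε' := Real.rpow_pos_of_pos hlogK _
      have h10 : 0 < Real.log (K : ℝ) ^ ε2 := Real.rpow_pos_of_pos hlogK _
      rw [div_le_div_iff₀ h10 hlQpos]
      calc (K : ℝ) * Real.log Q ^ ε' ≤ K * (B ^ ε' * Real.log (K : ℝ) ^ ε') :=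
            mul_le_mul_of_nonneg_left h6 hKpos.le
        _ = B ^ ε' * (K * Real.log (K : ℝ) ^ ε') := by ring
        _ ≤ c * Real.log (K : ℝ) ^ (ε2 - ε') * (K * Real.log (K : ℝ) ^ ε') :=
            mul_le_mul_of_nonneg_right h8 (by positivity)
        _ = c * K * Real.log (K : ℝ) ^ ε2 := by rw [h7]; ring
    -- errors of the small denominators
    have herr : (K : ℝ) ^ κ * (K : ℝ) ^ (1 - (1 - α) / 4) ≤ c * K / Real.log Q ^ ε' := by
      have h7 : (K : ℝ) ^ κ * (K : ℝ) ^ (1 - (1 - α) / 4) = (K : ℝ) ^ (1 - κ) := by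
        rw [← Real.rpow_add hKpos]
        congr 1
        rw [hκdef]; ring
      have h8 : (K : ℝ) ^ (1 - κ) * (K : ℝ) ^ κ = K := by
        rw [← Real.rpow_add hKpos]
        rw [sub_add_cancel, Real.rpow_one]
      rw [h7, le_div_iff₀ hlQpos]
      calc (K : ℝ) ^ (1 - κ) * Real.log Q ^ ε'
          ≤ (K : ℝ) ^ (1 - κ) * (c * (K : ℝ) ^ κ) :=
            mul_le_mul_of_nonneg_left (h6.trans h4) (by positivity)
        _ = c * ((K : ℝ) ^ (1 - κ) * (K : ℝ) ^ κ) := by ring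
        _ = c * K := by rw [h8]
    set T := {x : ℕ × ℕ | 1 ≤ x.1 ∧ x.1 ≤ M ∧ x.2 < d ∧ ∃ (p : ℤ) (q : ℕ), Q ≤ q ∧
        (q : ℝ) ≤ (K : ℝ) ^ A ∧
        |((s : ℝ) * x.1 * ξ + x.2) / d - (p : ℝ) / (q : ℝ)|
          ≤ c / ((q : ℝ) ^ 2 * Real.log (q : ℝ) ^ (1 + ε))} with hT
    set J : Finset ℕ := (Icc 2 ⌊(K : ℝ) ^ A⌋₊).filter (fun q : ℕ => Q ≤ q) with hJ
    have hsub : T ⊆ ((J.biUnion (PQ ξ c ε s M d) : Finset (ℕ × ℕ)) : Set (ℕ × ℕ)) := by
      rintro x ⟨ha1, ha2, hb, p, q, hq1, hq2, hp⟩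
      rw [Finset.mem_coe, Finset.mem_biUnion]
      have hq2' : (2 : ℝ) ≤ q := hQ.trans hq1
      refine ⟨q, Finset.mem_filter.2 ⟨Finset.mem_Icc.2 ⟨by exact_mod_cast hq2',
        Nat.le_floor hq2⟩, hq1⟩, ?_⟩
      exact Finset.mem_filter.2 ⟨Finset.mem_product.2
        ⟨Finset.mem_Icc.2 ⟨ha1, ha2⟩, Finset.mem_range.2 hb⟩, p, hp⟩
    have hcard : (T.ncard : ℝ) ≤ ∑ q ∈ J, ((PQ ξ c ε s M d q).card : ℝ) := by
      have h1 := Set.ncard_le_ncard hsub (Finset.finite_toSet _)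
      rw [Set.ncard_coe_finset] at h1
      have h2 := h1.trans (Finset.card_biUnion_le (s := J) (t := PQ ξ c ε s M d))
      exact_mod_cast h2
    have hJ2 : ∀ q ∈ J, 2 ≤ q ∧ Q ≤ q ∧ (q : ℝ) ≤ (K : ℝ) ^ A := by
      intro q hq
      obtain ⟨h, h'⟩ := Finset.mem_filter.1 hq
      rw [Finset.mem_Icc] at h
      refine ⟨h.1, h', ?_⟩
      exact (Nat.cast_le.2 h.2).trans (Nat.floor_le (by positivity))
    have hphi : ∀ I : Finset ℕ, I ⊆ J → ∑ q ∈ I, 1 / ((q : ℝ) * LL ε q) ≤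
        Zsum (ε - ε') / Real.log Q ^ ε' := by
      intro I hI
      calc ∑ q ∈ I, 1 / ((q : ℝ) * LL ε q) ≤ ∑ q ∈ I, phi (ε - ε') q / Real.log Q ^ ε' :=
            Finset.sum_le_sum fun q hq => phi_le hε'0 hQ (hJ2 q (hI hq)).2.1
        _ = (∑ q ∈ I, phi (ε - ε') q) / Real.log Q ^ ε' := by rw [Finset.sum_div]
        _ ≤ Zsum (ε - ε') / Real.log Q ^ ε' := by
            apply div_le_div_of_nonneg_right _ hlQpos.le
            exact (summable_phi hε2).sum_le_tsum _ (fun q _ => (phi_pos (ε - ε') q).le)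
    have hsum : ∑ q ∈ J, ((PQ ξ c ε s M d q).card : ℝ) ≤
        4 * c * K * ∑ q ∈ J, 1 / ((q : ℝ) * LL ε q) +
          ∑ q ∈ J, (Nat.gcd d q : ℝ) * WW ξ c ε s M d q := by
      rw [Finset.mul_sum, ← Finset.sum_add_distrib]
      refine Finset.sum_le_sum fun q hq => ?_
      refine (PQ_card hC hc hd (hJ2 q hq).1).trans (le_of_eq ?_)
      rw [← hKdef]
      ring
    -- the two parts
    set I1 : Finset ℕ := J.filter (fun q : ℕ => (q : ℝ) ≤ (K : ℝ) ^ κ) with hI1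
    set I2 : Finset ℕ := J.filter (fun q : ℕ => ¬ (q : ℝ) ≤ (K : ℝ) ^ κ) with hI2
    have hsplit : ∑ q ∈ J, (Nat.gcd d q : ℝ) * WW ξ c ε s M d q =
        ∑ q ∈ I1, (Nat.gcd d q : ℝ) * WW ξ c ε s M d q +
          ∑ q ∈ I2, (Nat.gcd d q : ℝ) * WW ξ c ε s M d q :=
      (Finset.sum_filter_add_sum_filter_not J (fun q : ℕ => (q : ℝ) ≤ (K : ℝ) ^ κ) _).symm
    have hp1 : ∑ q ∈ I1, (Nat.gcd d q : ℝ) * WW ξ c ε s M d q ≤
        12 * c * K * (Zsum (ε - ε') / Real.log Q ^ ε') + c * K / Real.log Q ^ ε' := by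
      have e1 : ∀ q ∈ I1, (Nat.gcd d q : ℝ) * WW ξ c ε s M d q ≤
          12 * c * K * (1 / ((q : ℝ) * LL ε q)) + (K : ℝ) ^ (1 - (1 - α) / 4) := by
        intro q hq
        obtain ⟨hqJ, hqK⟩ := Finset.mem_filter.1 hq
        have := h1 q g1 hs hsα' (hJ2 q hqJ).1 hqK
        refine this.trans (le_of_eq ?_)
        rw [← hKdef]
        ring
      refine (Finset.sum_le_sum e1).trans ?_
      rw [Finset.sum_add_distrib, ← Finset.mul_sum, Finset.sum_const, nsmul_eq_mul]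
      have e2 : (I1.card : ℝ) ≤ (K : ℝ) ^ κ := by
        have hsub1 : I1 ⊆ Icc 1 ⌊(K : ℝ) ^ κ⌋₊ := by
          intro q hq
          obtain ⟨hqJ, hqK⟩ := Finset.mem_filter.1 hq
          exact Finset.mem_Icc.2 ⟨by have := (hJ2 q hqJ).1; omega, Nat.le_floor hqK⟩
        have := Finset.card_le_card hsub1
        rw [Nat.card_Icc, Nat.add_sub_cancel] at this
        exact (Nat.cast_le.2 this).trans (Nat.floor_le (by positivity))
      have e3 : (I1.card : ℝ) * (K : ℝ) ^ (1 - (1 - α) / 4) ≤ c * K / Real.log Q ^ ε' :=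
        (mul_le_mul_of_nonneg_right e2 (by positivity)).trans herr
      have e4 := mul_le_mul_of_nonneg_left (hphi I1 (Finset.filter_subset _ _))
        (show 0 ≤ 12 * c * K by positivity)
      exact add_le_add e4 e3
    have hp2 : ∑ q ∈ I2, (Nat.gcd d q : ℝ) * WW ξ c ε s M d q ≤ c * K / Real.log Q ^ ε' := by
      refine le_trans ?_ (h2.trans ?_)
      · apply Finset.sum_le_sum_of_subset_of_nonneg
        · intro q hq
          obtain ⟨hqJ, hqK⟩ := Finset.mem_filter.1 hq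
          obtain ⟨hqI, -⟩ := Finset.mem_filter.1 hqJ
          refine Finset.mem_filter.2 ⟨?_, ?_⟩
          · rw [← hKdef]; exact hqI
          · rw [← hKdef]; exact (not_le.1 hqK).le
        · intro q _ _
          positivity
      · rw [← hKdef]; exact hbig
    have hp0 := mul_le_mul_of_nonneg_left (hphi J (Finset.Subset.refl _))
        (show 0 ≤ 4 * c * K by positivity)
    calc (T.ncard : ℝ) ≤ _ := hcard
      _ ≤ _ := hsum
      _ ≤ 4 * c * K * (Zsum (ε - ε') / Real.log Q ^ ε') +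
          ((12 * c * K * (Zsum (ε - ε') / Real.log Q ^ ε') + c * K / Real.log Q ^ ε') +
            c * K / Real.log Q ^ ε') := by
          rw [hsplit]
          exact add_le_add hp0 (add_le_add hp1 hp2)
      _ = (16 * Zsum (ε - ε') + 2) * c * K / Real.log Q ^ ε' := by ring

end Pool.Agent.Helper85.MD
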